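import Mathlib

/-! Characters of infinite abelian groups: almost orthogonal pairs, countable quotients. -/

namespace Pool.Agent.P.MP_f7f1a6_co.A

open Finset

variable {G : Type} [AddCommGroup G]

/-- characters -/
abbrev X (G : Type) [AddCommGroup G] : Type := AddChar G Circle

/-- distance of a character value from one -/
noncomputable def dev (z : X G) (s : G) : ℝ := ‖(z s : ℂ) - 1‖

lemma dev_sub (z : X G) (a b : G) : ‖(z a : ℂ) - z b‖ = dev z (a - b) := by
  have : (z a : ℂ) - z b = ((z (a - b) : ℂ) - 1) * z b := by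
    rw [sub_mul, one_mul, ← Circle.coe_mul, ← z.map_add_eq_mul, sub_add_cancel]
  rw [this, norm_mul, Circle.norm_coe, mul_one, dev]

lemma dev_zero (z : X G) : dev z 0 = 0 := by simp [dev]

lemma dev_neg (z : X G) (a : G) : dev z (-a) = dev z a := by
  rw [← zero_sub, ← dev_sub, norm_sub_rev, dev_sub, sub_zero]

lemma dev_add (z : X G) (a b : G) : dev z (a + b) ≤ dev z a + dev z b := by
  have h := norm_sub_le_norm_sub_add_norm_sub (z (a + b) : ℂ) (z b) 1
  rwa [dev_sub, add_sub_cancel_right] at h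

lemma dev_sum {ι : Type} (z : X G) (s : Finset ι) (f : ι → G) :
    dev z (∑ i ∈ s, f i) ≤ ∑ i ∈ s, dev z (f i) :=
  le_sum_of_subadditive (dev z) (dev_zero z).le (dev_add z) s f

lemma abs_cases {u : ℤ} (hu : |u| ≤ 1) : u = 0 ∨ u = 1 ∨ u = -1 := by
  have := abs_le.1 hu
  omega

lemma dev_smul (z : X G) {u : ℤ} (hu : |u| ≤ 1) (a : G) : dev z (u • a) ≤ dev z a := by
  rcases abs_cases hu with rfl | rfl | rfl
  · rw [zero_smul, dev_zero]; exact norm_nonneg _
  · rw [one_smul]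
  · rw [neg_smul, one_smul, dev_neg]

lemma re_neg (z : X G) (a : G) : (z (-a) : ℂ).re = (z a : ℂ).re := by
  rw [z.map_neg_eq_inv, Circle.coe_inv_eq_conj, Complex.conj_re]

lemma exists_pow {w : Circle} (hw : w ≠ 1) : ∃ k : ℕ, ((w ^ k : Circle) : ℂ).re ≤ -1 / 2 := by
  have hpi := Real.pi_pos
  have h0 : 0 < |Complex.arg w| := abs_pos.2 fun h => hw (Circle.arg_eq_zero.1 h)
  have h1 : |Complex.arg w| ≤ Real.pi := Complex.abs_arg_le_pi _
  obtain ⟨k, k1, k2⟩ : ∃ k : ℕ, 2 * Real.pi / 3 ≤ k * |Complex.arg w| ∧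
      k * |Complex.arg w| ≤ 4 * Real.pi / 3 := by
    by_cases h : |Complex.arg w| ≤ 2 * Real.pi / 3
    · refine ⟨⌈2 * Real.pi / 3 / |Complex.arg w|⌉₊, (div_le_iff₀ h0).1 (Nat.le_ceil _), ?_⟩
      have h2 := Nat.ceil_lt_add_one (a := 2 * Real.pi / 3 / |Complex.arg w|) (by positivity)
      have h3 := mul_lt_mul_of_pos_right h2 h0
      rw [add_mul, div_mul_cancel₀ _ h0.ne'] at h3
      linarith
    · exact ⟨1, by push_cast; linarith, by push_cast; linarith⟩
  refine ⟨k, ?_⟩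
  have e : ((w ^ k : Circle) : ℂ).re = Real.cos (k * |Complex.arg w|) := by
    conv_lhs => rw [← Circle.exp_arg w, ← Circle.exp_natCast_mul, Circle.coe_exp,
      Complex.exp_ofReal_mul_I_re]
    rw [← Real.cos_abs, abs_mul, Nat.abs_cast]
  have h4 := Real.cos_le_cos_of_nonneg_of_le_pi (abs_nonneg (k * |Complex.arg w| - Real.pi))
    (y := Real.pi / 3) (by linarith) (abs_le.2 ⟨by linarith, by linarith⟩)
  rw [Real.cos_pi_div_three, Real.cos_abs, Real.cos_sub_pi] at h4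
  rw [e]
  linarith

lemma exists_sep {t : G} (ht : t ≠ 0) : ∃ z : X G, (z t : ℂ).re ≤ -1 / 2 := by
  obtain ⟨c, hc⟩ := CharacterModule.exists_character_apply_ne_zero_of_ne_zero ht
  let f : ℚ →+ Additive Circle := Circle.expHom.comp
    ((AddMonoidHom.mulRight (2 * Real.pi)).comp (Rat.castHom ℝ).toAddMonoidHom)
  have hf : ∀ q : ℚ, f q = Additive.ofMul (Circle.exp (q * (2 * Real.pi))) := fun _ => rfl
  let ρ : AddCircle (1 : ℚ) →+ Additive Circle := QuotientAddGroup.lift _ f (by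
    rintro _ ⟨n, rfl⟩
    show f _ = 0
    rw [hf]
    simp only [zsmul_eq_mul, mul_one, Rat.cast_intCast, Circle.exp_int_mul_two_pi]
    rfl)
  let z : X G := AddChar.toAddMonoidHomEquiv.symm (ρ.comp c)
  have hz : z t ≠ 1 := by
    intro h
    obtain ⟨q, hq⟩ := QuotientAddGroup.mk_surjective (c t)
    have h1 : ρ (c t) = 0 := h
    rw [← hq] at h1 hc
    have h2 : Circle.exp (q * (2 * Real.pi)) = 1 := h1
    obtain ⟨n, hn⟩ := Circle.exp_eq_one.1 h2
    have h3 : (q : ℝ) = n := mul_right_cancel₀ (by positivity) hn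
    have h4 : q = n := by exact_mod_cast h3
    exact hc ((QuotientAddGroup.eq_zero_iff _).2 ⟨n, by simp [h4]⟩)
  obtain ⟨k, hk⟩ := exists_pow hz
  exact ⟨z ^ k, hk⟩

lemma exists_near (Λ : Finset (X G)) (g : ℕ → G) {η : ℝ} (hη : 0 < η) :
    ∃ i j, i < j ∧ ∀ χ ∈ Λ, dev χ (g j - g i) ≤ η := by
  obtain ⟨a, φ, hφ, hl⟩ := CompactSpace.tendsto_subseq fun k => fun χ : Λ => χ.1 (g k)
  obtain ⟨N, hN⟩ := Metric.cauchySeq_iff'.1 hl.cauchySeq η hη
  refine ⟨φ N, φ (N + 1), hφ (Nat.lt_succ_self N), fun χ hχ => ?_⟩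
  have h1 := (dist_le_pi_dist _ _ (⟨χ, hχ⟩ : Λ)).trans (hN (N + 1) (Nat.le_succ N)).le
  rw [← dev_sub, ← dist_eq_norm]
  exact h1

/-- an element near the annihilator of `Λ` and a character near the annihilator of `T` that pair
to a negative number -/
lemma exists_pair [Infinite G] (Λ : Finset (X G)) (T : Finset G) {η : ℝ} (hη : 0 < η) :
    ∃ (n : G) (z : X G), (∀ χ ∈ Λ, dev χ n ≤ η) ∧ (∀ s ∈ T, dev z s ≤ η) ∧
      (z n : ℂ).re ≤ -1 / 2 := by
  by_cases h : ∃ g : G, ¬ IsOfFinAddOrder g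
  · obtain ⟨g, hg⟩ := h
    obtain ⟨ψ, hψ⟩ := (Module.Baer.of_divisible ℝ).extension_property_addMonoidHom
      (zmultiplesHom G g) (injective_zsmul_iff_not_isOfFinAddOrder.2 hg) (Int.castAddHom ℝ)
    have h1 : ψ g = 1 := by simpa using DFunLike.congr_fun hψ 1
    obtain ⟨K, hK⟩ := exists_nat_gt (Real.pi * (∑ s ∈ T, |ψ s|) / η)
    have hK0 : (0 : ℝ) < K := lt_of_le_of_lt (by positivity) hK
    obtain ⟨i, j, hij, hn⟩ := exists_near Λ (fun k => (k * K) • g) hη
    obtain ⟨N, hN, hKN⟩ : ∃ N : ℝ, ψ ((j * K) • g - (i * K) • g) = N ∧ K ≤ N := by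
      refine ⟨_, rfl, ?_⟩
      have : (i : ℝ) + 1 ≤ j := by exact_mod_cast hij
      rw [map_sub, map_nsmul, map_nsmul, h1]
      simp only [nsmul_eq_mul, mul_one]
      push_cast
      nlinarith
    have hN0 : 0 < N := hK0.trans_le hKN
    let z : X G := AddChar.toAddMonoidHomEquiv.symm
      (Circle.expHom.comp ((AddMonoidHom.mulRight (Real.pi / N)).comp ψ))
    have hz : ∀ s, z s = Circle.exp (ψ s * (Real.pi / N)) := fun _ => rfl
    refine ⟨_, z, hn, fun s hs => ?_, ?_⟩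
    · rw [dev, hz, Circle.coe_exp, mul_comm]
      refine Real.norm_exp_I_mul_ofReal_sub_one_le.trans ?_
      have a1 : |ψ s| ≤ ∑ s ∈ T, |ψ s| :=
        single_le_sum (f := fun s => |ψ s|) (fun _ _ => abs_nonneg _) hs
      rw [div_lt_iff₀ hη] at hK
      rw [Real.norm_eq_abs, abs_mul, abs_of_pos (div_pos Real.pi_pos hN0), ← mul_div_assoc,
        div_le_iff₀ hN0]
      nlinarith [Real.pi_pos]
    · rw [hz, hN, mul_div_cancel₀ _ hN0.ne', Circle.coe_exp, Complex.exp_pi_mul_I]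
      norm_num
  · push Not at h
    let H := AddSubgroup.closure (T : Set G)
    have : AddGroup.FG H := AddGroup.closure_finset_fg T
    have : Finite H := AddCommGroup.finite_of_fg_isAddTorsion H fun x =>
      H.subtype_injective.isOfFinAddOrder_iff.1 (h x.1)
    have : Infinite (G ⧸ H) := by
      by_contra hq
      have := not_infinite_iff_finite.1 hq
      exact not_finite_iff_infinite.2 ‹Infinite G›
        (Finite.of_equiv _ (AddSubgroup.addGroupEquivQuotientProdAddSubgroup (s := H)).symm)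
    obtain ⟨i, j, hij, hn⟩ := exists_near Λ
      (fun k => (Infinite.natEmbedding (G ⧸ H) k).out) hη
    obtain ⟨z, hz⟩ := exists_sep (G := G ⧸ H)
      (t := Infinite.natEmbedding (G ⧸ H) j - Infinite.natEmbedding (G ⧸ H) i)
      (sub_ne_zero.2 fun e => hij.ne' ((Infinite.natEmbedding (G ⧸ H)).injective e))
    refine ⟨_, z.compAddMonoidHom (QuotientAddGroup.mk' H), hn, fun s hs => ?_, ?_⟩
    · have : QuotientAddGroup.mk' H s = 0 :=
        (QuotientAddGroup.eq_zero_iff _).2 (AddSubgroup.subset_closure hs)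
      rw [dev, AddChar.compAddMonoidHom_apply, this]
      simpa using hη.le
    · rw [AddChar.compAddMonoidHom_apply, map_sub]
      simpa using hz

lemma exists_lac [Infinite G] (Λ : Finset (X G)) (T : Finset G) {η : ℝ} (hη : 0 < η) (d : ℕ) :
    ∃ (n : Fin d → G) (z : Fin d → X G), (∀ j, ∀ χ ∈ Λ, dev χ (n j) ≤ η) ∧
      (∀ j, ∀ s ∈ T, dev (z j) s ≤ η) ∧ (∀ i j, i ≠ j → dev (z j) (n i) ≤ η) ∧
      ∀ j, (z j (n j) : ℂ).re ≤ -1 / 2 := by
  classical
  induction d with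
  | zero => exact ⟨Fin.elim0, Fin.elim0, fun j => j.elim0, fun j => j.elim0, fun j => j.elim0,
      fun j => j.elim0⟩
  | succ d ih =>
    obtain ⟨n, z, h1, h2, h3, h4⟩ := ih
    obtain ⟨m, y, k1, k2, k3⟩ := exists_pair (Λ ∪ univ.image z) (T ∪ univ.image n) hη
    refine ⟨Fin.cons m n, Fin.cons y z,
      Fin.cases (fun χ hχ => k1 χ (mem_union_left _ hχ)) h1,
      Fin.cases (fun s hs => k2 s (mem_union_left _ hs)) h2, fun i j => ?_, Fin.cases k3 h4⟩
    refine Fin.cases ?_ (fun i => ?_) i <;> refine Fin.cases ?_ (fun j => ?_) j <;> intro hij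
    · exact absurd rfl hij
    · exact k1 _ (mem_union_right _ (mem_image_of_mem _ (mem_univ j)))
    · exact k2 _ (mem_union_right _ (mem_image_of_mem _ (mem_univ i)))
    · exact h3 i j fun e => hij (e ▸ rfl)

/-- an infinite abelian group has a countably infinite quotient -/
lemma exists_quot [Infinite G] : ∃ (Q : Type) (_ : AddCommGroup Q) (φ : G →+ Q),
    Countable Q ∧ Infinite Q ∧ Function.Surjective φ := by
  let f := Infinite.natEmbedding G
  let π : (ℕ →₀ ℤ) →+ G := (Finsupp.linearCombination ℤ f).toAddMonoidHom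
  let ι : (ℕ →₀ ℤ) →+ (ℕ →₀ ℚ) := Finsupp.mapRange.addMonoidHom (Int.castAddHom ℚ)
  have hι : Function.Injective ι :=
    Finsupp.mapRange_injective _ (map_zero (Int.castAddHom ℚ)) Int.cast_injective
  let K : AddSubgroup (ℕ →₀ ℚ) := π.ker.map ι
  let _ : DivisibleBy (ℕ →₀ ℚ) ℤ := divisibleByOfSMulRightSurj _ _ fun {n} hn a =>
    ⟨(n : ℚ)⁻¹ • a, by
      have : (n : ℚ) ≠ 0 := by exact_mod_cast hn
      show n • ((n : ℚ)⁻¹ • a) = a
      rw [← Int.cast_smul_eq_zsmul ℚ, smul_smul, mul_inv_cancel₀ this, one_smul]⟩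
  let _ : DivisibleBy (ℕ →₀ ℚ) ℕ := AddGroup.divisibleByNatOfDivisibleByInt _
  let _ : DivisibleBy ((ℕ →₀ ℚ) ⧸ K) ℤ := AddGroup.divisibleByIntOfDivisibleByNat _
  obtain ⟨φ, hφ⟩ := (Module.Baer.of_divisible ((ℕ →₀ ℚ) ⧸ K)).extension_property_addMonoidHom
    (QuotientAddGroup.kerLift π) (QuotientAddGroup.kerLift_injective π)
    (QuotientAddGroup.map π.ker K ι (AddSubgroup.le_comap_map _ _))
  have h1 : ∀ a, φ (π a) = QuotientAddGroup.mk (ι a) := fun a =>
    DFunLike.congr_fun hφ (QuotientAddGroup.mk a)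
  have h2 : ∀ k, π (Finsupp.single k 1) = f k := fun k => by simp [π]
  have : Countable ((ℕ →₀ ℚ) ⧸ K) := QuotientAddGroup.mk_surjective.countable
  refine ⟨φ.range, inferInstance, φ.rangeRestrict, inferInstance,
    Infinite.of_injective (fun k => φ.rangeRestrict (f k)) fun k l hkl => ?_,
    φ.rangeRestrict_surjective⟩
  have h3 : φ (f k) = φ (f l) := congrArg Subtype.val hkl
  rw [← h2, ← h2, h1, h1, QuotientAddGroup.eq_iff_sub_mem, ← map_sub] at h3
  obtain ⟨a, ha, e⟩ := h3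
  rw [hι e, SetLike.mem_coe, AddMonoidHom.mem_ker, map_sub, h2, h2] at ha
  exact f.injective (sub_eq_zero.1 ha)

end Pool.Agent.P.MP_f7f1a6_co.A
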