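import Pool.Agent.P.MP_f7f1a6_co.Z.PD
import Pool.Agent.P.MP_f7f1a6_co.A.Chr

/-! Fourier transforms of finitely supported measures on the dual of an abelian group. -/

namespace Pool.Agent.P.MP_f7f1a6_co.A

open Finset ComplexConjugate

variable {G : Type} [AddCommGroup G]

/-- `c` is the transform of a finitely supported measure on the characters -/
def PD (c : G → ℂ) : Prop :=
  ∃ (ι : Type) (_ : Fintype ι) (w : ι → ℝ) (z : ι → X G), (∀ i, 0 ≤ w i) ∧
    ∀ s, c s = ∑ i, (w i : ℂ) * (z i s : ℂ)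

variable {c c' : G → ℂ}

lemma PD.zero : PD fun _ : G => 0 :=
  ⟨Empty, inferInstance, fun i => i.elim, fun i => i.elim, fun i => i.elim, fun s => by simp⟩

lemma PD.pt (z : X G) : PD fun s => (z s : ℂ) :=
  ⟨Unit, inferInstance, fun _ => 1, fun _ => z, fun _ => zero_le_one, fun s => by simp⟩

lemma PD.one : PD fun _ : G => 1 := PD.pt 1

lemma PD.add (h : PD c) (h' : PD c') : PD fun s => c s + c' s := by
  obtain ⟨ι, _, w, z, hw, hc⟩ := h
  obtain ⟨ι', _, w', z', hw', hc'⟩ := h'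
  refine ⟨ι ⊕ ι', inferInstance, Sum.elim w w', Sum.elim z z', ?_, fun s => ?_⟩
  · rintro (i | i)
    exacts [hw i, hw' i]
  · rw [Fintype.sum_sum_type]
    simp [hc, hc']

lemma PD.sum {ι : Type} (E : Finset ι) {f : ι → G → ℂ} (h : ∀ i, PD (f i)) :
    PD fun s => ∑ i ∈ E, f i s := by
  classical
  induction E using Finset.induction_on with
  | empty => simpa using PD.zero
  | insert t E ht ih => simpa only [sum_insert ht] using (h t).add ih

lemma PD.mul (h : PD c) (h' : PD c') : PD fun s => c s * c' s := by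
  obtain ⟨ι, _, w, z, hw, hc⟩ := h
  obtain ⟨ι', _, w', z', hw', hc'⟩ := h'
  refine ⟨ι × ι', inferInstance, fun p => w p.1 * w' p.2, fun p => z p.1 * z' p.2,
    fun p => mul_nonneg (hw _) (hw' _), fun s => ?_⟩
  rw [Fintype.sum_prod_type]
  simp only [hc, hc', sum_mul_sum, AddChar.mul_apply, Circle.coe_mul, Complex.ofReal_mul]
  exact sum_congr rfl fun i _ => sum_congr rfl fun j _ => by ring

lemma PD.smul (h : PD c) {r : ℝ} (hr : 0 ≤ r) : PD fun s => r * c s := by
  obtain ⟨ι, _, w, z, hw, hc⟩ := h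
  refine ⟨ι, inferInstance, fun i => r * w i, z, fun i => mul_nonneg hr (hw i), fun s => ?_⟩
  simp only [hc, mul_sum, Complex.ofReal_mul, mul_assoc]

lemma PD.comp {Q : Type} [AddCommGroup Q] {c : Q → ℂ} (h : PD c) (φ : G →+ Q) :
    PD fun s => c (φ s) := by
  obtain ⟨ι, _, w, z, hw, hc⟩ := h
  exact ⟨ι, inferInstance, w, fun i => (z i).compAddMonoidHom φ, hw, fun s => hc _⟩

lemma conj_pt (z : X G) (s : G) : conj (z s : ℂ) = z (-s) := by
  rw [z.map_neg_eq_inv, Circle.coe_inv_eq_conj]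

lemma PD.neg (h : PD c) (s : G) : c (-s) = conj (c s) := by
  obtain ⟨ι, _, w, z, -, hc⟩ := h
  simp only [hc, map_sum, map_mul, Complex.conj_ofReal, conj_pt]

lemma PD.re (h : PD c) : PD fun s => ((c s).re : ℂ) := by
  have h2 := (h.add (h.comp (-AddMonoidHom.id G))).smul (r := 1 / 2) (by norm_num)
  convert h2 using 2 with s
  rw [AddMonoidHom.neg_apply, AddMonoidHom.id_apply, h.neg, Complex.add_conj]
  push_cast
  ring

lemma PD.norm_le (h : PD c) (s : G) : ‖c s‖ ≤ (c 0).re := by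
  obtain ⟨ι, _, w, z, hw, hc⟩ := h
  rw [hc, hc, Complex.re_sum]
  refine (norm_sum_le _ _).trans (sum_le_sum fun i _ => ?_)
  simp [abs_of_nonneg (hw i)]

lemma PD.per (h : PD c) : ∃ Λ : Finset (X G), ∀ (η : ℝ) (y : G), (∀ χ ∈ Λ, dev χ y ≤ η) →
    ∀ x, ‖c (x - y) - c x‖ ≤ η * (c 0).re := by
  obtain ⟨ι, _, w, z, hw, hc⟩ := h
  refine ⟨univ.image z, fun η y hy x => ?_⟩
  rw [hc, hc, hc, Complex.re_sum, ← sum_sub_distrib, mul_sum]
  refine (norm_sum_le _ _).trans (sum_le_sum fun i _ => ?_)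
  rw [← mul_sub, norm_mul, dev_sub, sub_sub_cancel_left, dev_neg, Complex.norm_real,
    Real.norm_of_nonneg (hw i), AddChar.map_zero_eq_one, Circle.coe_one, mul_one,
    Complex.ofReal_re, mul_comm]
  exact mul_le_mul_of_nonneg_right (hy _ (mem_image_of_mem _ (mem_univ i))) (hw i)

lemma PD.shift (h : PD c) (r : ℝ) (t : G) :
    PD fun s => 2 * (|r| : ℝ) * c s + r * c (s - t) + r * c (s + t) := by
  obtain ⟨ι, _, w, z, hw, hc⟩ := h
  refine ⟨ι, inferInstance, fun i => w i * (2 * |r| + 2 * r * (z i t : ℂ).re), z, fun i => ?_,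
    fun s => ?_⟩
  · refine mul_nonneg (hw i) ?_
    have h1 : |(z i t : ℂ).re| ≤ 1 := by simpa using Complex.abs_re_le_norm (z i t : ℂ)
    have h2 : |r * (z i t : ℂ).re| ≤ |r| := by
      rw [abs_mul]
      exact mul_le_of_le_one_right (abs_nonneg r) h1
    linarith [neg_abs_le (r * (z i t : ℂ).re)]
  · simp only [hc, mul_sum, ← sum_add_distrib]
    refine sum_congr rfl fun i _ => ?_
    have h1 := Complex.add_conj (z i t : ℂ)
    rw [conj_pt] at h1
    rw [sub_eq_add_neg, AddChar.map_add_eq_mul, AddChar.map_add_eq_mul]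
    push_cast at h1 ⊢
    linear_combination (r * w i * (z i s : ℂ)) * h1

lemma PD.atom (z : X G) {t : ℝ} (h0 : 0 ≤ t) (h1 : t ≤ 1) :
    PD fun s => ((1 - t + t * (z s : ℂ).re : ℝ) : ℂ) := by
  have := (PD.one.smul (sub_nonneg.2 h1)).add ((PD.pt z).re.smul h0)
  convert this using 2 with s
  push_cast
  ring

lemma exists_mix {r b : ℝ} (h : r ≤ b) (hb : b < 1) :
    ∃ t : ℝ, 0 ≤ t ∧ t ≤ 1 ∧ 1 - t + t * r = b := by
  have h1 : 0 < 1 - r := by linarith
  refine ⟨(1 - b) / (1 - r), div_nonneg (by linarith) h1.le, (div_le_one h1).2 (by linarith), ?_⟩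
  field_simp
  ring

lemma exists_kill (T : Finset G) : ∃ h, PD h ∧ h 0 = 1 ∧ ∀ s ∈ T, s ≠ 0 → h s = 0 := by
  classical
  induction T using Finset.induction_on with
  | empty => exact ⟨_, PD.one, rfl, by simp⟩
  | insert t T _ ih =>
    obtain ⟨h, h1, h2, h3⟩ := ih
    by_cases ht : t = 0
    · refine ⟨h, h1, h2, fun s hs hs0 => h3 s ?_ hs0⟩
      exact (mem_insert.1 hs).resolve_left (ht ▸ hs0)
    obtain ⟨z, hz⟩ := exists_sep ht
    obtain ⟨τ, t0, t1, e⟩ := exists_mix (b := 0) (hz.trans (by norm_num)) one_pos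
    refine ⟨_, h1.mul (PD.atom z t0 t1), by simp [h2], fun s hs hs0 => ?_⟩
    rcases mem_insert.1 hs with rfl | hs
    · simp only [e]
      simp
    · simp only [h3 s hs hs0, zero_mul]

/-- prescribed even real values at finitely many nonzero points -/
lemma exists_corr (F : Finset G) (hF : 0 ∉ F) (v : G → ℝ) (hv : ∀ s, v (-s) = v s) :
    ∃ k, PD k ∧ (k 0).re ≤ 2 * ∑ s ∈ F, |v s| ∧ ∀ s ∈ F, k s = v s := by
  classical
  let E := F ∪ F.image fun s => -s
  have hE : ∀ s ∈ E, s ≠ 0 ∧ -s ∈ E := by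
    intro s hs
    rcases mem_union.1 hs with h | h
    · exact ⟨fun e => hF (e ▸ h), mem_union_right _ (mem_image_of_mem _ h)⟩
    · obtain ⟨t, ht, rfl⟩ := mem_image.1 h
      exact ⟨fun e => hF (neg_eq_zero.1 e ▸ ht), mem_union_left _ (by rwa [neg_neg])⟩
  obtain ⟨h, h1, h2, h3⟩ := exists_kill (E ∪ (E ×ˢ E).image fun p => p.1 - p.2)
  have a1 : ∀ s ∈ E, h s = 0 := fun s hs => h3 s (mem_union_left _ hs) (hE s hs).1
  have a2 : ∀ s ∈ E, ∀ t ∈ E, h (s - t) = if s = t then 1 else 0 := by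
    intro s hs t ht
    split_ifs with e
    · rw [e, sub_self, h2]
    · exact h3 _ (mem_union_right _ (mem_image.2 ⟨(s, t), mem_product.2 ⟨hs, ht⟩, rfl⟩))
        (sub_ne_zero.2 e)
  refine ⟨_, PD.sum E fun t => h1.shift (v t / 2) t, ?_, fun s hs => ?_⟩
  · have b1 : ∀ t ∈ E, 2 * ((|v t / 2| : ℝ) : ℂ) * h 0 + ((v t / 2 : ℝ) : ℂ) * h (0 - t) +
        ((v t / 2 : ℝ) : ℂ) * h (0 + t) = ((|v t| : ℝ) : ℂ) := by
      intro t ht
      rw [zero_sub, zero_add, a1 t ht, a1 _ (hE t ht).2, h2, abs_div, abs_two]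
      push_cast
      ring
    have b2 : ∑ s ∈ F.image fun s => -s, |v s| ≤ ∑ s ∈ F, |v s| :=
      (sum_image_le_of_nonneg fun _ _ => abs_nonneg _).trans_eq
        (sum_congr rfl fun s _ => by rw [hv])
    have b3 := sum_union_inter (s₁ := F) (s₂ := F.image fun s => -s) (f := fun s => |v s|)
    have b4 : 0 ≤ ∑ s ∈ F ∩ F.image fun s => -s, |v s| := sum_nonneg fun _ _ => abs_nonneg _
    rw [sum_congr rfl b1, ← Complex.ofReal_sum, Complex.ofReal_re]
    linarith
  · have hs' : s ∈ E := mem_union_left _ hs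
    have b1 : ∀ t ∈ E, 2 * ((|v t / 2| : ℝ) : ℂ) * h s + ((v t / 2 : ℝ) : ℂ) * h (s - t) +
        ((v t / 2 : ℝ) : ℂ) * h (s + t) = (if s = t then ((v t / 2 : ℝ) : ℂ) else 0) +
          if -s = t then ((v t / 2 : ℝ) : ℂ) else 0 := by
      intro t ht
      rw [a1 s hs', a2 s hs' t ht, ← sub_neg_eq_add s t, a2 s hs' _ (hE t ht).2]
      simp only [neg_eq_iff_eq_neg (a := s), mul_ite, mul_one, mul_zero, zero_add]
    rw [sum_congr rfl b1, sum_add_distrib, sum_ite_eq, sum_ite_eq, if_pos hs',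
      if_pos (hE s hs').2, hv]
    push_cast
    ring

/-- the function whose zeros are aimed at -/
noncomputable def W (z : ℂ) : ℝ := Z.G (4 * z)

lemma W_lip {z z' : ℂ} (h : ‖z‖ ≤ 1) (h' : ‖z'‖ ≤ 1) : |W z'| ≤ |W z| + 36 * ‖z' - z‖ := by
  have e : W z' = W z + ((z' - z) * (4 + 16 * (z' + z))).re := by
    have : (z' - z) * (4 + 16 * (z' + z)) =
        4 * z' + 4 * z' * (4 * z') - (4 * z + 4 * z * (4 * z)) := by ring
    rw [this, Complex.sub_re, Complex.add_re, Complex.add_re, W, W, Z.G, Z.G]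
    ring
  have h1 : ‖4 + 16 * (z' + z)‖ ≤ 36 := by
    have a1 := norm_add_le 4 (16 * (z' + z))
    have a2 := norm_add_le z' z
    rw [norm_mul, Complex.norm_ofNat, Complex.norm_ofNat] at a1
    linarith
  have h2 := Complex.abs_re_le_norm ((z' - z) * (4 + 16 * (z' + z)))
  rw [norm_mul] at h2
  have h3 := mul_le_mul_of_nonneg_left h1 (norm_nonneg (z' - z))
  rw [e]
  linarith [abs_add_le (W z) ((z' - z) * (4 + 16 * (z' + z))).re]

/-- the part of the measure that is moved and the part that stays -/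
lemma PD.split (h : PD c) (h0 : c 0 = 1) (x : G) :
    ∃ u v, PD u ∧ PD v ∧ (∀ s, c s = u s + v s) ∧ W (u x - v x / 8) = 0 := by
  obtain ⟨ι, _, w, z, hw, hc⟩ := h
  have h1 : ∑ i, w i = 1 := by
    rw [hc] at h0
    simp only [AddChar.map_zero_eq_one, Circle.coe_one, mul_one] at h0
    exact_mod_cast h0
  obtain ⟨m, hm, hG⟩ := Z.exists_mult w (fun i => (z i x : ℂ)) hw h1 fun i => Circle.norm_coe _
  refine ⟨_, _,
    ⟨ι, inferInstance, fun i => w i * ((1 + 2 * m i) / 9), z, fun i => ?_, fun _ => rfl⟩,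
    ⟨ι, inferInstance, fun i => w i * ((8 - 2 * m i) / 9), z, fun i => ?_, fun _ => rfl⟩,
    fun s => ?_, ?_⟩
  · exact mul_nonneg (hw i) (by linarith [(abs_le.1 (hm i)).1])
  · exact mul_nonneg (hw i) (by linarith [(abs_le.1 (hm i)).2])
  · rw [hc, ← sum_add_distrib]
    exact sum_congr rfl fun i _ => by push_cast; ring
  · rw [← hG, W, sum_div, ← sum_sub_distrib, mul_sum]
    congr 1
    exact sum_congr rfl fun i _ => by push_cast; ring

end Pool.Agent.P.MP_f7f1a6_co.A
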