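import Pool.Agent.P.MP_f7f1a6_co.Z.Main
import Pool.Agent.P.MP_f7f1a6_co.A.PD

/-! In every infinite abelian group: a set with all translates recurrent that is not a van der
Corput set. -/

namespace Pool.Agent.P.MP_f7f1a6_co.A

open Finset MeasureTheory
open scoped Pointwise BoundedContinuousFunction

variable {G : Type} [AddCommGroup G]

/-- the invariant of the construction -/
def Good (p : (G → ℂ) × Finset G) : Prop :=
  PD p.1 ∧ p.1 0 = 1 ∧ 0 ∉ p.2 ∧ ∑ s ∈ p.2, |W (p.1 s)| < 1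

/-- sets that are `δ`-dense in a translate of every finite family -/
def Den (δ : ℝ) (A : Set G) : Prop :=
  ∀ (H : Type) [Fintype H] (φ : H → G), ∃ t : G, ∃ F : Finset H,
    δ * Fintype.card H ≤ F.card ∧ ∀ y ∈ F, t + φ y ∈ A

lemma sign_val (a b : ZMod 2) : |(a.val : ℤ) - b.val| ≤ 1 ∧
    ((a.val : ℤ) - b.val = 0 ↔ ¬ a + b = 1) := by
  revert a b
  decide

/-- a probability measure that is near the trivial character on `T` and has transform near `-1/8`
at the differences of weight three quarters -/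
lemma exists_lam [Infinite G] (Λ : Finset (X G)) (T : Finset G) {η : ℝ} (hη : 0 < η) {r : ℕ}
    (hr : 0 < r) : ∃ (lam : G → ℂ) (φ : (Fin (16 * r) → ZMod 2) → G), PD lam ∧ lam 0 = 1 ∧
      (∀ s ∈ T, ‖lam s - 1‖ ≤ η) ∧ (∀ a b, ∀ χ ∈ Λ, dev χ (φ a - φ b) ≤ η) ∧
      ∀ a b, wt (a + b) = 12 * r → ∀ x ∈ T, ‖lam (x - (φ a - φ b)) - (-1 / 8)‖ ≤ η := by
  classical
  have hd : 0 < 16 * r := by omega
  obtain ⟨ε, hε⟩ : ∃ ε : ℝ, (((16 * r : ℕ) : ℝ) + 1) * ε = η :=
    ⟨η / _, mul_div_cancel₀ _ (by positivity)⟩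
  have hd0 : (0 : ℝ) ≤ ((16 * r : ℕ) : ℝ) := by positivity
  have hε0 : 0 < ε := by nlinarith
  obtain ⟨n, z, h1, h2, h3, h4⟩ := exists_lac Λ T hε0 (16 * r)
  choose t t0 t1 ht using fun j => exists_mix (h4 j) (by norm_num)
  have hdc : ((16 * r : ℕ) : ℂ) ≠ 0 := by exact_mod_cast hd.ne'
  have hone : ∑ _j : Fin (16 * r), ((((16 * r : ℕ) : ℝ)⁻¹ : ℝ) : ℂ) * 1 = 1 := by
    rw [sum_const, card_univ, Fintype.card_fin, nsmul_eq_mul, mul_one, Complex.ofReal_inv,
      Complex.ofReal_natCast, mul_inv_cancel₀ hdc]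
  have near : ∀ j (a b : G), dev (z j) (a - b) ≤ η →
      ‖((1 - t j + t j * (z j a : ℂ).re : ℝ) : ℂ) - ((1 - t j + t j * (z j b : ℂ).re : ℝ) : ℂ)‖
        ≤ η := by
    intro j a b h
    have a1 := Complex.abs_re_le_norm ((z j a : ℂ) - z j b)
    rw [dev_sub, Complex.sub_re] at a1
    rw [← Complex.ofReal_sub, Complex.norm_real, Real.norm_eq_abs, add_sub_add_left_eq_sub,
      ← mul_sub, abs_mul, abs_of_nonneg (t0 j)]
    nlinarith [abs_nonneg ((z j a : ℂ).re - (z j b : ℂ).re), t0 j, t1 j]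
  have e1 : ∀ a b : Fin (16 * r) → ZMod 2, ∑ j, ((a j).val : ℤ) • n j - ∑ j, ((b j).val : ℤ) • n j =
      ∑ j, (((a j).val : ℤ) - (b j).val) • n j := fun a b => by
    simp only [← sum_sub_distrib, sub_smul]
  have bnd : ∀ (χ : X G) (E : Finset (Fin (16 * r))) (a b : Fin (16 * r) → ZMod 2),
      (∀ i ∈ E, dev χ (n i) ≤ ε) →
      dev χ (∑ i ∈ E, (((a i).val : ℤ) - (b i).val) • n i) ≤ ((16 * r : ℕ) : ℝ) * ε := by
    intro χ E a b h
    refine (dev_sum χ E _).trans ((sum_le_card_nsmul _ _ ε fun i hi =>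
      (dev_smul χ (sign_val _ _).1 _).trans (h i hi)).trans ?_)
    rw [nsmul_eq_mul]
    refine mul_le_mul_of_nonneg_right ?_ hε0.le
    exact_mod_cast (card_le_univ E).trans_eq (Fintype.card_fin _)
  refine ⟨fun s => ∑ j, ((((16 * r : ℕ) : ℝ)⁻¹ : ℝ) : ℂ) *
      ((1 - t j + t j * (z j s : ℂ).re : ℝ) : ℂ), fun a => ∑ j, ((a j).val : ℤ) • n j,
    PD.sum univ fun j => (PD.atom (z j) (t0 j) (t1 j)).smul (by positivity), ?_, fun s hs => ?_,
    fun a b χ hχ => ?_, fun a b hab x hx => ?_⟩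
  · simpa using hone
  · conv_lhs => rw [← hone]
    refine Z.avg_near hd _ (fun _ => 1) fun j => ?_
    have := near j s 0 (by rw [sub_zero]; nlinarith [h2 j s hs])
    simpa using this
  · rw [e1]
    linarith [bnd χ univ a b fun i _ => h1 i χ hχ]
  · have e2 : ∑ j, ((((16 * r : ℕ) : ℝ)⁻¹ : ℝ) : ℂ) *
        (1 - 3 / 2 * ((if a j + b j = 1 then 1 else 0 : ℕ) : ℂ)) = -1 / 8 := by
      have e3 : ∑ j, ((if a j + b j = 1 then 1 else 0 : ℕ) : ℂ) = ((12 * r : ℕ) : ℂ) := by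
        rw [← hab, ← Nat.cast_sum]
        rfl
      rw [← mul_sum, sum_sub_distrib, ← mul_sum, e3, sum_const, card_univ, Fintype.card_fin,
        nsmul_eq_mul, mul_one, Complex.ofReal_inv, Complex.ofReal_natCast,
        inv_mul_eq_iff_eq_mul₀ hdc]
      push_cast
      ring
    rw [e1, ← e2]
    refine Z.avg_near hd _ _ fun j => ?_
    have a1 := near j (x - ∑ i, (((a i).val : ℤ) - (b i).val) • n i)
      (-((((a j).val : ℤ) - (b j).val) • n j)) (by
        rw [← add_sum_erase _ _ (mem_univ j)]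
        have b1 := bnd (z j) (univ.erase j) a b fun i hi => h3 i j (ne_of_mem_erase hi)
        have b2 := dev_add (z j) x (-∑ i ∈ univ.erase j, (((a i).val : ℤ) - (b i).val) • n i)
        rw [dev_neg] at b2
        have b3 := h2 j x hx
        refine le_trans (le_of_eq ?_) (b2.trans (by linarith))
        congr 1
        abel)
    have a2 : ((1 - t j + t j * (z j (-((((a j).val : ℤ) - (b j).val) • n j)) : ℂ).re : ℝ) : ℂ) =
        1 - 3 / 2 * ((if a j + b j = 1 then 1 else 0 : ℕ) : ℂ) := by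
      rw [re_neg]
      by_cases h : a j + b j = 1
      · have b1 : (z j ((((a j).val : ℤ) - (b j).val) • n j) : ℂ).re = (z j (n j) : ℂ).re := by
          rcases abs_cases (sign_val (a j) (b j)).1 with e | e | e
          · exact absurd h ((sign_val _ _).2.1 e)
          · rw [e, one_smul]
          · rw [e, neg_smul, one_smul, re_neg]
        rw [b1, ht, if_pos h]
        norm_num
      · rw [(sign_val _ _).2.2 h, if_neg h]
        simp
    rwa [a2] at a1

lemma step [Infinite G] {p : (G → ℂ) × Finset G} (hp : Good p) (x : G) {δ : ℝ} (hδ : 0 < δ) :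
    ∃ p', Good p' ∧ p.2 ⊆ p'.2 ∧ ∀ A, Den δ A → ∃ a ∈ A, ∃ b ∈ A, x - (a - b) ∈ p'.2 := by
  classical
  obtain ⟨c, F⟩ := p
  obtain ⟨hc, hc0, hF0, hE⟩ := hp
  simp only at hc hc0 hF0 hE ⊢
  obtain ⟨r0, hr0⟩ := dense_cube δ hδ
  obtain ⟨r, hr⟩ : ∃ r, r = r0 + 1 := ⟨_, rfl⟩
  obtain ⟨u, v, hu, hv, huv, hG⟩ := hc.split hc0 x
  obtain ⟨Λu, hΛu⟩ := hu.per
  obtain ⟨Λv, hΛv⟩ := hv.per
  let Ω := Fin (16 * r) → ZMod 2
  obtain ⟨K, hK⟩ : ∃ K : ℝ, K = 72 * (F.card + Fintype.card (Ω × Ω)) + 1 := ⟨_, rfl⟩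
  have hK1 : 1 ≤ K := by
    have : (0 : ℝ) ≤ 72 * (F.card + Fintype.card (Ω × Ω)) := by positivity
    linarith
  have hE0 : 0 ≤ ∑ s ∈ F, |W (c s)| := sum_nonneg fun _ _ => abs_nonneg _
  obtain ⟨η, hηK⟩ : ∃ η : ℝ, η * K = 1 - ∑ s ∈ F, |W (c s)| :=
    ⟨_ / K, div_mul_cancel₀ _ (by linarith)⟩
  have hη : 0 < η := by nlinarith
  have hη1 : η ≤ 1 := by nlinarith
  obtain ⟨lam, φ, hl, hl0, hl1, hφ, hl2⟩ :=
    exists_lam (Λu ∪ Λv) (insert x F) hη (r := r) (by omega)
  let R : Finset G := (univ.filter fun p : Ω × Ω => wt (p.1 + p.2) = 12 * r).image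
    fun p => x - (φ p.1 - φ p.2)
  have hc' : PD fun s => u s + v s * lam s := hu.add (hv.mul hl)
  have h01 : u 0 + v 0 = 1 := by rw [← huv, hc0]
  have hre : (u 0).re + (v 0).re = 1 := by rw [← Complex.add_re, h01, Complex.one_re]
  have hu0 := (norm_nonneg _).trans (hu.norm_le 0)
  have hv1 : ∀ s, ‖v s‖ ≤ 1 := fun s => by linarith [hv.norm_le s]
  have hn' : ∀ s, ‖u s + v s * lam s‖ ≤ 1 := fun s => by
    have := hc'.norm_le s
    simp only [hl0, mul_one, h01, Complex.one_re] at this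
    exact this
  have hmul : ∀ s (t : ℂ), ‖t‖ ≤ η → ‖v s * t‖ ≤ η := fun s t ht => by
    rw [norm_mul]
    nlinarith [hv1 s, norm_nonneg t, norm_nonneg (v s)]
  have b1 : ∀ s ∈ F, |W (u s + v s * lam s)| ≤ |W (c s)| + 72 * η := by
    intro s hs
    have a1 := W_lip (z := c s) (by simpa [hc0] using hc.norm_le s) (hn' s)
    have a2 : u s + v s * lam s - c s = v s * (lam s - 1) := by rw [huv]; ring
    rw [a2] at a1
    linarith [hmul s _ (hl1 s (mem_insert_of_mem hs))]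
  have b2 : ∀ s ∈ R, |W (u s + v s * lam s)| ≤ 72 * η := by
    intro s hs
    obtain ⟨p, hp, e⟩ := mem_image.1 hs
    have a0 : ‖u x - v x / 8‖ ≤ 1 := by
      have := norm_sub_le (u x) (v x / 8)
      rw [norm_div, Complex.norm_ofNat] at this
      linarith [hu.norm_le x, hv.norm_le x, norm_nonneg (v x)]
    have a1 := W_lip a0 (hn' s)
    have a3 := hΛu η _ (fun χ hχ => hφ p.1 p.2 χ (mem_union_left _ hχ)) x
    have a4 := hΛv η _ (fun χ hχ => hφ p.1 p.2 χ (mem_union_right _ hχ)) x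
    have a5 := hl2 _ _ (mem_filter.1 hp).2 x (mem_insert_self _ _)
    rw [e] at a3 a4 a5
    have a2 : u s + v s * lam s - (u x - v x / 8) =
        (u s - u x) + (v s * (lam s - (-1 / 8)) - (v s - v x) / 8) := by ring
    have a6 := norm_add_le (u s - u x) (v s * (lam s - (-1 / 8)) - (v s - v x) / 8)
    have a7 := norm_sub_le (v s * (lam s - (-1 / 8))) ((v s - v x) / 8)
    rw [norm_div, Complex.norm_ofNat] at a7
    have a8 : η * (u 0).re + η * (v 0).re = η := by rw [← mul_add, hre, mul_one]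
    rw [a2, hG, abs_zero] at a1
    linarith [hmul s _ a5, norm_nonneg (v s - v x)]
  refine ⟨(fun s => u s + v s * lam s, F ∪ R), ⟨hc', by simp only [hl0, mul_one, h01],
    fun h => ?_, ?_⟩, subset_union_left, fun A hA => ?_⟩
  · rcases mem_union.1 h with h | h
    · exact hF0 h
    · obtain ⟨p, hp, e⟩ := mem_image.1 h
      have := hl2 _ _ (mem_filter.1 hp).2 x (mem_insert_self _ _)
      rw [e, hl0] at this
      norm_num at this
      linarith
  · have c1 : ∑ s ∈ F ∪ R, |W (u s + v s * lam s)| ≤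
        ∑ s ∈ F, |W (u s + v s * lam s)| + ∑ s ∈ R, |W (u s + v s * lam s)| := by
      rw [← sum_union_inter]
      exact le_add_of_nonneg_right (sum_nonneg fun _ _ => abs_nonneg _)
    have c2 := sum_le_sum b1
    have c3 := sum_le_sum b2
    rw [sum_add_distrib, sum_const, nsmul_eq_mul] at c2
    rw [sum_const, nsmul_eq_mul] at c3
    have c4 : (R.card : ℝ) ≤ Fintype.card (Ω × Ω) := by
      exact_mod_cast card_image_le.trans (card_le_univ _)
    have c5 : (R.card : ℝ) * (72 * η) ≤ Fintype.card (Ω × Ω) * (72 * η) :=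
      mul_le_mul_of_nonneg_right c4 (by positivity)
    rw [hK] at hηK
    simp only
    nlinarith
  · obtain ⟨t, D, hD, hDA⟩ := hA Ω φ
    obtain ⟨a, ha, b, hb, hab⟩ := hr0 r (by omega) (Fin (16 * r)) (Fintype.card_fin _) D 0
      (by
        rw [Fintype.card_fun, Fintype.card_fin, ZMod.card] at hD
        exact_mod_cast hD) (by simp)
    rw [zero_add] at hab
    refine ⟨_, hDA a ha, _, hDA b hb, mem_union_right _ (mem_image.2
      ⟨(a, b), mem_filter.2 ⟨mem_univ _, hab⟩, ?_⟩)⟩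
    abel

/-- a measure of bounded mass with constant transform on the finite set -/
lemma Good.exact {p : (G → ℂ) × Finset G} (hp : Good p) :
    ∃ τ, PD τ ∧ (τ 0).re ≤ 22 ∧ ∀ s ∈ p.2, τ s = -1 / 16 := by
  obtain ⟨c, F⟩ := p
  obtain ⟨hc, hc0, hF0, hE⟩ := hp
  simp only at hc hc0 hF0 hE ⊢
  obtain ⟨k, k1, k2, k3⟩ := exists_corr F hF0 (fun s => -W (c s)) (fun s => by
    rw [hc.neg]
    simp [W, Z.G])
  have h4 : PD fun s => 4 * c s := by simpa using hc.smul (r := 4) (by norm_num)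
  refine ⟨_, (h4.re.add (h4.mul h4).re).add k1, ?_, fun s hs => ?_⟩
  · simp only [abs_neg] at k2
    simp only [hc0, Complex.add_re, Complex.ofReal_re]
    norm_num
    linarith
  · simp only [k3 s hs, W, Z.G]
    push_cast
    ring

lemma core [Infinite G] [Countable G] : ∃ F : ℕ → Finset G, (∀ k, F k ⊆ F (k + 1)) ∧
    (∀ k, ∃ τ, PD τ ∧ (τ 0).re ≤ 22 ∧ ∀ s ∈ F k, τ s = -1 / 16) ∧
    ∀ δ, 0 < δ → ∀ A, Den δ A → ∀ x, ∃ a ∈ A, ∃ b ∈ A, ∃ k, x - (a - b) ∈ F k := by
  obtain ⟨e, he⟩ := exists_surjective_nat (G × ℕ)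
  choose nx h1 h2 h3 using fun (p : {p : (G → ℂ) × Finset G // Good p}) (k : ℕ) =>
    step p.2 (e k).1 (δ := 1 / (((e k).2 : ℝ) + 1)) (by positivity)
  let P : ℕ → {p : (G → ℂ) × Finset G // Good p} := fun k => Nat.rec
    ⟨(fun _ => 1, ∅), PD.one, rfl, by simp, by simp⟩ (fun k p => ⟨nx p k, h1 p k⟩) k
  refine ⟨fun k => (P k).1.2, fun k => h2 (P k) k, fun k => (P k).2.exact,
    fun δ hδ A hA x => ?_⟩
  obtain ⟨n, hn⟩ := exists_nat_one_div_lt hδ
  obtain ⟨k, hk⟩ := he (x, n)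
  obtain ⟨a, ha, b, hb, hab⟩ := h3 (P k) k A (by
    intro H _ φ
    obtain ⟨t, D, hD, hDA⟩ := hA H φ
    refine ⟨t, D, le_trans (mul_le_mul_of_nonneg_right ?_ (by positivity)) hD, hDA⟩
    rw [hk]
    exact hn.le)
  rw [hk] at hab
  exact ⟨a, ha, b, hb, k + 1, hab⟩

variable [TopologicalSpace G] [DiscreteTopology G]

/-- the dual group -/
abbrev D (G : Type) [AddCommGroup G] [TopologicalSpace G] : Type :=
  PontryaginDual (Multiplicative G)

/-- evaluation of a character -/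
noncomputable def ev (s : G) (χ : D G) : ℂ := ((χ (Multiplicative.ofAdd s) : Circle) : ℂ)

/-- a character as a point of the dual group -/
noncomputable def toD (z : X G) : D G :=
  ({ z.toMonoidHom with
     continuous_toFun := continuous_of_discreteTopology } : Multiplicative G →ₜ* Circle)

omit [DiscreteTopology G] in
lemma cont_ev (s : G) : Continuous (ev s) := by
  have h1 : Continuous fun χ : (Multiplicative G →ₜ* Circle) =>
      χ (Multiplicative.ofAdd s) := continuous_eval_const _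
  have h2 : Continuous fun z : Circle => (z : ℂ) := continuous_subtype_val
  exact h2.comp h1

section measure

variable [MeasurableSpace (D G)] [BorelSpace (D G)]

omit [DiscreteTopology G] in
lemma int_ev (s : G) (μ : Measure (D G)) [IsFiniteMeasure μ] : Integrable (ev s) μ :=
  Integrable.of_bound (cont_ev s).measurable.aestronglyMeasurable 1
    (Filter.Eventually.of_forall fun _ => (Circle.norm_coe _).le)

lemma PD.measure {τ : G → ℂ} (h : PD τ) :
    ∃ μ : FiniteMeasure (D G), ∀ s, ∫ χ, ev s χ ∂(μ : Measure (D G)) = τ s := by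
  obtain ⟨ι, _, w, z, hw, hc⟩ := h
  refine ⟨⟨∑ i, (w i).toNNReal • Measure.dirac (toD (z i)), inferInstance⟩, fun s => ?_⟩
  rw [hc, FiniteMeasure.toMeasure_mk, integral_finsetSum_measure fun i _ => int_ev s _]
  refine sum_congr rfl fun i _ => ?_
  rw [integral_smul_nnreal_measure, integral_dirac, NNReal.smul_def, Real.coe_toNNReal _ (hw i),
    Complex.real_smul]
  rfl

lemma closed_ev (s : G) (a : ℂ) :
    IsClosed {μ : FiniteMeasure (D G) | ∫ χ, ev s χ ∂(μ : Measure (D G)) = a} := by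
  have h1 := FiniteMeasure.continuous_integral_continuousMap
    (⟨fun χ => (ev s χ).re, Complex.continuous_re.comp (cont_ev s)⟩ : C(D G, ℝ))
  have h2 := FiniteMeasure.continuous_integral_continuousMap
    (⟨fun χ => (ev s χ).im, Complex.continuous_im.comp (cont_ev s)⟩ : C(D G, ℝ))
  convert (isClosed_eq h1 (continuous_const (y := a.re))).inter
    (isClosed_eq h2 (continuous_const (y := a.im))) using 1
  ext μ
  have e1 := integral_re (int_ev s (μ : Measure (D G)))
  have e2 := integral_im (int_ev s (μ : Measure (D G)))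
  simp only [RCLike.re_to_complex, RCLike.im_to_complex] at e1 e2
  simp only [Set.mem_ofPred_eq, Set.mem_inter_iff, ContinuousMap.coe_mk, e1, e2, Complex.ext_iff]

lemma exists_limit (F : ℕ → Set G) (hF : ∀ k, F k ⊆ F (k + 1))
    (h : ∀ k, ∃ τ, PD τ ∧ (τ 0).re ≤ 22 ∧ ∀ s ∈ F k, τ s = -1 / 16) :
    ∃ μ : FiniteMeasure (D G), ∀ k, ∀ s ∈ F k, ∫ χ, ev s χ ∂(μ : Measure (D G)) = -1 / 16 := by
  have hc : ∀ k, IsClosed {μ : FiniteMeasure (D G) | ∀ s ∈ F k,
      ∫ χ, ev s χ ∂(μ : Measure (D G)) = -1 / 16} := by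
    intro k
    simp only [Set.ofPred_forall]
    exact isClosed_iInter fun s => isClosed_iInter fun _ => closed_ev s _
  have hK := isCompact_setOfPred_finiteMeasure_le_of_compactSpace (D G) 22
  obtain ⟨μ, hμ⟩ := IsCompact.nonempty_iInter_of_sequence_nonempty_isCompact_isClosed
    (fun k => {μ : FiniteMeasure (D G) | μ.mass ≤ 22} ∩ {μ : FiniteMeasure (D G) | ∀ s ∈ F k,
      ∫ χ, ev s χ ∂(μ : Measure (D G)) = -1 / 16})
    (fun k μ hμ => ⟨hμ.1, fun s hs => hμ.2 s (hF k hs)⟩) (fun k => by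
      obtain ⟨τ, h1, h2, h3⟩ := h k
      obtain ⟨μ, hμ⟩ := h1.measure
      refine ⟨μ, ?_, fun s hs => by rw [hμ, h3 s hs]⟩
      have e := hμ 0
      have e0 : ∀ χ : D G, ev 0 χ = 1 := fun χ => by simp [ev]
      simp only [e0, integral_const, Complex.real_smul, mul_one] at e
      rw [← e, Complex.ofReal_re] at h2
      have : ((μ.mass : ℝ)) ≤ 22 := h2
      exact_mod_cast this)
    (hK.inter_right (hc 0))
    (fun k => (isClosed_le FiniteMeasure.continuous_mass continuous_const).inter (hc k))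
  exact ⟨μ, fun k => (Set.mem_iInter.1 hμ k).2⟩

end measure

lemma not_vdc_of (F : ℕ → Set G) (hF : ∀ k, F k ⊆ F (k + 1))
    (h : ∀ k, ∃ τ, PD τ ∧ (τ 0).re ≤ 22 ∧ ∀ s ∈ F k, τ s = -1 / 16) :
    ¬ IsVanDerCorput {s : G | ∃ k, s ∈ F k} := by
  intro hv
  let _ : MeasurableSpace (D G) := borel _
  have _ : BorelSpace (D G) := ⟨rfl⟩
  obtain ⟨μ, hμ⟩ := exists_limit F hF h
  have key := hv (Measure.dirac 1 + (16 : NNReal) • (μ : Measure (D G))) inferInstance (by
    rintro s ⟨k, hs⟩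
    show ∫ χ, ev s χ ∂_ = 0
    have e1 : ev s 1 = 1 := rfl
    rw [integral_add_measure (int_ev s _) (int_ev s _), integral_dirac,
      integral_smul_nnreal_measure, hμ k s hs, NNReal.smul_def, Complex.real_smul, e1]
    norm_num)
  rw [Measure.add_apply, Measure.dirac_apply_of_mem (Set.mem_singleton _)] at key
  simp at key

theorem of_infinite [Infinite G] : ∃ S : Set G,
    (∀ A : Set G, 0 < upperBanachDensity A → A - A + S = Set.univ) ∧ ¬ IsVanDerCorput S := by
  obtain ⟨Q, _, φ, _, _, hφ⟩ := exists_quot (G := G)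
  obtain ⟨F, h1, h2, h3⟩ := core (G := Q)
  refine ⟨{s | ∃ k, s ∈ φ ⁻¹' (F k : Set Q)}, fun A hA => Set.eq_univ_of_forall fun x => ?_,
    not_vdc_of _ (fun k s hs => h1 k hs) fun k => ?_⟩
  · obtain ⟨δ, hδ, hA⟩ := exists_coset A hA
    obtain ⟨_, ⟨a, ha, rfl⟩, _, ⟨b, hb, rfl⟩, k, hk⟩ := h3 δ hδ (φ '' A) (by
      intro H _ ψ
      choose g hg using fun y => hφ (ψ y)
      obtain ⟨t, E, hE, hEA⟩ := hA H g
      exact ⟨φ t, E, hE, fun y hy => ⟨_, hEA y hy, by rw [map_add, hg]⟩⟩) (φ x)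
    refine ⟨a - b, Set.sub_mem_sub ha hb, x - (a - b), ⟨k, ?_⟩, by simp⟩
    rw [Set.mem_preimage, map_sub, map_sub]
    exact hk
  · obtain ⟨τ, t1, t2, t3⟩ := h2 k
    exact ⟨_, t1.comp φ, by rwa [map_zero], fun s hs => t3 _ hs⟩

theorem of_finite [Finite G] {S : Set G} (h : IsDBExpanding S) : IsVanDerCorput S := by
  classical
  have := Fintype.ofFinite G
  have hc : (0 : ℝ) < Fintype.card G := by exact_mod_cast Fintype.card_pos
  let m : (G →ᵇ ℝ) →ₗ[ℝ] ℝ :=
    { toFun := fun f => (∑ x, f x) / Fintype.card G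
      map_add' := fun f g => by simp [sum_add_distrib, add_div]
      map_smul' := fun a f => by simp [← mul_sum, mul_div_assoc] }
  have hm : ∀ f, m f = (∑ x, f x) / Fintype.card G := fun _ => rfl
  let f : G →ᵇ ℝ := BoundedContinuousFunction.mkOfCompact
    ⟨({0} : Set G).indicator fun _ => 1, continuous_of_discreteTopology⟩
  have h0 : 0 < upperBanachDensity ({0} : Set G) := by
    refine lt_of_lt_of_le (b := m f) ?_ (le_csSup ⟨1, ?_⟩ ⟨m, f, ⟨fun g hg => ?_, fun g hg => ?_,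
      fun g g' t hg => ?_⟩, fun _ => rfl, rfl⟩)
    · rw [hm]
      refine div_pos (sum_pos' (fun x _ => Set.indicator_nonneg (fun _ _ => zero_le_one) x)
        ⟨0, mem_univ _, ?_⟩) hc
      show (0 : ℝ) < ({0} : Set G).indicator (fun _ => 1) 0
      simp
    · rintro _ ⟨n, g, ⟨n1, n2, -⟩, hg, rfl⟩
      have a1 := n1 (1 - g) fun x => by
        rw [BoundedContinuousFunction.sub_apply, hg, sub_nonneg]
        exact Set.indicator_le_self' (fun _ _ => zero_le_one) x
      rw [map_sub, n2 1 fun _ => rfl] at a1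
      linarith
    · rw [hm]
      exact div_nonneg (sum_nonneg fun x _ => hg x) hc.le
    · rw [hm]
      simp [hg]
    · rw [hm, hm]
      simp only [hg]
      exact congrArg (· / _) (Equiv.sum_comp (Equiv.addRight t) fun x => g x)
  obtain ⟨Λ, η, hη, hS⟩ := h {0} h0
  obtain ⟨_, ⟨_, rfl, _, rfl, rfl⟩, s, hs, e⟩ := hS (a := 0) fun χ _ => by simpa using hη
  have e' : s = 0 := by simpa using e
  intro _ _ σ _ hσ
  have h1 := hσ s hs
  simp only [e', ofAdd_zero, map_one, Circle.coe_one, integral_const, Complex.real_smul, mul_one,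
    Complex.ofReal_eq_zero] at h1
  exact measure_mono_null (Set.subset_univ _) ((measureReal_eq_zero_iff (measure_ne_top _ _)).1 h1)

end Pool.Agent.P.MP_f7f1a6_co.A
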